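import Mathlib
import Pool.Agent.H.MP_172a5c_ag.helper41.Kou

/-! A real system with 3 and 4 monomials that has 36 simple real solutions,
one more than `(2 * 3 - 1) * (2 * 4 - 1) = 35`. -/

set_option autoImplicit false

namespace Pool.Agent.Results.MP_172a5c_ag.ThirtySixZeros

open MvPolynomial MeasureTheory

set_option exponentiation.threshold 2000

/-- The trinomial `1 - x ^ 400 - y ^ 400`. -/
noncomputable def trinomial : MvPolynomial (Fin 2) ℝ := 1 - X 0 ^ 400 - X 1 ^ 400

/-- The tetranomial `k x y - 10243 x^3 y^991 - 10243 x^991 y^3 - 27128 x^421 y^421`. -/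
noncomputable def tetranomial (k : ℝ) : MvPolynomial (Fin 2) ℝ :=
  C k * X 0 * X 1 - C 10243 * X 0 ^ 3 * X 1 ^ 991 - C 10243 * X 0 ^ 991 * X 1 ^ 3
    - C 27128 * X 0 ^ 421 * X 1 ^ 421

/-- `p` is a simple (nondegenerate) real solution of `f = g = 0`. -/
def IsSimpleSolution (f g : MvPolynomial (Fin 2) ℝ) (p : Fin 2 → ℝ) : Prop :=
  eval p f = 0 ∧ eval p g = 0 ∧
    (!![eval p (pderiv 0 f), eval p (pderiv 1 f);
        eval p (pderiv 0 g), eval p (pderiv 1 g)] : Matrix (Fin 2) (Fin 2) ℝ).det ≠ 0

open Pool.Agent.H.MP_172a5c_ag.helper41 in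
lemma tri_eq : trinomial = Kou.FF := by
  unfold trinomial Kou.FF Kou.PM
  simp
  ring

open Pool.Agent.H.MP_172a5c_ag.helper41 in
lemma tetra_eq (k : ℝ) : tetranomial k = Kou.GG k := by
  unfold tetranomial Kou.GG Kou.PM
  simp
  ring

lemma PM_eq (a : ℝ) (i j : ℕ) : Pool.Agent.H.MP_172a5c_ag.helper41.Kou.PM a i j =
    monomial (Finsupp.single 0 i + Finsupp.single 1 j) a := by
  unfold Pool.Agent.H.MP_172a5c_ag.helper41.Kou.PM
  rw [C_mul_X_pow_eq_monomial, X_pow_eq_monomial, monomial_mul, mul_one]

lemma sgl_inj {i j i' j' : ℕ} (h : (Finsupp.single (0 : Fin 2) i + Finsupp.single 1 j) =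
    (Finsupp.single (0 : Fin 2) i' + Finsupp.single 1 j')) : i = i' ∧ j = j' := by
  have h0 := DFunLike.congr_fun h 0
  have h1 := DFunLike.congr_fun h 1
  simpa using And.intro h0 h1

open Pool.Agent.H.MP_172a5c_ag.helper41 in
lemma tri_card : trinomial.support.card = 3 := by
  refine le_antisymm (tri_eq ▸ Kou.FF_card) ?_
  have hsub : ({Finsupp.single (0 : Fin 2) 0 + Finsupp.single 1 0,
      Finsupp.single (0 : Fin 2) 400 + Finsupp.single 1 0,
      Finsupp.single (0 : Fin 2) 0 + Finsupp.single 1 400} : Finset (Fin 2 →₀ ℕ)) ⊆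
      trinomial.support := by
    intro s hs
    rw [tri_eq, Kou.FF, PM_eq, PM_eq, PM_eq, mem_support_iff, coeff_add, coeff_add,
      coeff_monomial, coeff_monomial, coeff_monomial]
    simp only [Finset.mem_insert, Finset.mem_singleton] at hs
    rcases hs with rfl | rfl | rfl
    · rw [if_pos rfl, if_neg (fun h => by simpa using (sgl_inj h).1),
        if_neg (fun h => by simpa using (sgl_inj h).2)]; norm_num
    · rw [if_pos rfl, if_neg (fun h => by simpa using (sgl_inj h).1),
        if_neg (fun h => by simpa using (sgl_inj h).1)]; norm_num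
    · rw [if_pos rfl, if_neg (fun h => by simpa using (sgl_inj h).2),
        if_neg (fun h => by simpa using (sgl_inj h).1)]; norm_num
  have hc : ({Finsupp.single (0 : Fin 2) 0 + Finsupp.single 1 0,
      Finsupp.single (0 : Fin 2) 400 + Finsupp.single 1 0,
      Finsupp.single (0 : Fin 2) 0 + Finsupp.single 1 400} : Finset (Fin 2 →₀ ℕ)).card = 3 := by
    refine Finset.card_eq_three.2 ⟨_, _, _, ?_, ?_, ?_, rfl⟩ <;> intro h <;>
      have := sgl_inj h <;> simp at this
  rw [← hc]
  exact Finset.card_le_card hsub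

open Pool.Agent.H.MP_172a5c_ag.helper41 in
lemma tetra_card {k : ℝ} (hk : k ≠ 0) : (tetranomial k).support.card = 4 := by
  refine le_antisymm (tetra_eq k ▸ Kou.GG_card k) ?_
  have hsub : ({Finsupp.single (0 : Fin 2) 1 + Finsupp.single 1 1,
      Finsupp.single (0 : Fin 2) 3 + Finsupp.single 1 991,
      Finsupp.single (0 : Fin 2) 991 + Finsupp.single 1 3,
      Finsupp.single (0 : Fin 2) 421 + Finsupp.single 1 421} : Finset (Fin 2 →₀ ℕ)) ⊆
      (tetranomial k).support := by
    intro s hs
    rw [tetra_eq, Kou.GG, PM_eq, PM_eq, PM_eq, PM_eq, mem_support_iff, coeff_add, coeff_add,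
      coeff_add, coeff_monomial, coeff_monomial, coeff_monomial, coeff_monomial]
    simp only [Finset.mem_insert, Finset.mem_singleton] at hs
    rcases hs with rfl | rfl | rfl | rfl
    · rw [if_pos rfl, if_neg (fun h => by simpa using (sgl_inj h).1),
        if_neg (fun h => by simpa using (sgl_inj h).1),
        if_neg (fun h => by simpa using (sgl_inj h).1)]; simpa using hk
    · rw [if_pos rfl, if_neg (fun h => by simpa using (sgl_inj h).1),
        if_neg (fun h => by simpa using (sgl_inj h).1),
        if_neg (fun h => by simpa using (sgl_inj h).1)]; norm_num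
    · rw [if_pos rfl, if_neg (fun h => by simpa using (sgl_inj h).1),
        if_neg (fun h => by simpa using (sgl_inj h).1),
        if_neg (fun h => by simpa using (sgl_inj h).1)]; norm_num
    · rw [if_pos rfl, if_neg (fun h => by simpa using (sgl_inj h).1),
        if_neg (fun h => by simpa using (sgl_inj h).1),
        if_neg (fun h => by simpa using (sgl_inj h).1)]; norm_num
  have hc : ({Finsupp.single (0 : Fin 2) 1 + Finsupp.single 1 1,
      Finsupp.single (0 : Fin 2) 3 + Finsupp.single 1 991,
      Finsupp.single (0 : Fin 2) 991 + Finsupp.single 1 3,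
      Finsupp.single (0 : Fin 2) 421 + Finsupp.single 1 421} : Finset (Fin 2 →₀ ℕ)).card = 4 := by
    rw [Finset.card_insert_of_notMem, Finset.card_insert_of_notMem,
      Finset.card_insert_of_notMem, Finset.card_singleton]
    · intro h
      have := sgl_inj (Finset.mem_singleton.1 h)
      simp at this
    · intro h
      simp only [Finset.mem_insert, Finset.mem_singleton] at h
      rcases h with h | h <;> have := sgl_inj h <;> simp at this
    · intro h
      simp only [Finset.mem_insert, Finset.mem_singleton] at h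
      rcases h with h | h | h <;> have := sgl_inj h <;> simp at this
  rw [← hc]
  exact Finset.card_le_card hsub

open Pool.Agent.H.MP_172a5c_ag.helper41 in
/-- For almost every `k` in `(10000, 10000.01)` the system with 3 and 4 monomials has 36 simple
real solutions. -/
theorem result :
    trinomial.support.card = 3 ∧ (∀ k : ℝ, k ≠ 0 → (tetranomial k).support.card = 4) ∧
    ∀ᵐ k : ℝ ∂volume, 10000 < k → k < 10000 + 1 / 100 →
      ∃ S : Finset (Fin 2 → ℝ), S.card = 36 ∧
        ∀ p ∈ S, IsSimpleSolution trinomial (tetranomial k) p := by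
  refine ⟨tri_card, fun k hk => tetra_card hk, ?_⟩
  have hs : ∀ᵐ k : ℝ ∂volume, k ∉ Kou.hh '' Kou.crit :=
    measure_eq_zero_iff_ae_notMem.1 Kou.sard
  filter_upwards [hs] with k hk3 hk1 hk2
  obtain ⟨a, hm, ha⟩ := Kou.zeros hk1 hk2
  have hinj := Kou.pt_inj hm (fun i => ⟨(ha i).1, (ha i).2.1⟩)
  refine ⟨(Finset.univ : Finset Kou.Idx).map ⟨Kou.pt a, hinj⟩, ?_, ?_⟩
  · rw [Finset.card_map]
    simp
  · intro p hp
    obtain ⟨q, -, rfl⟩ := Finset.mem_map.1 hp
    have h := Kou.pt_good (by linarith) hk3 ha q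
    rw [IsSimpleSolution, tri_eq, tetra_eq, Matrix.det_fin_two_of]
    exact h

end Pool.Agent.Results.MP_172a5c_ag.ThirtySixZeros
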